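import Pool.Agent.R898.QM

/-!
# Varieties with `H^(2m-1)(X) = 0` and Beilinson's arithmetic hard Lefschetz conjecture

The setting: `𝒱` is a class of smooth projective varieties over a field, closed under products, `C`
stands for the Chow groups with rational coefficients, `W` for a Weil cohomology theory, for example
singular cohomology; `CH^m(X)_hom = homTriv W X m`, `n = dim X`.

* `LefStd W X D`: `D` is a divisor class and the standard conjecture of Lefschetz type holds for
  `(X, D)`.
* `ArithLef W X D` (Beilinson's arithmetic hard Lefschetz conjecture for `(X, D)`): the maps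
  `D^(n+1-2m) : CH^m(X)_hom → CH^(n+1-m)(X)_hom` are bijective for all `m ≤ (n+1)/2`.
* `OnlyOdd W X Y` (`F^2 = 0`): the correspondences from `X` to `Y` which vanish on `H^(2m-1)(X)` kill
  `CH^m(X)_hom`.
* `IsAbelianClass W S`: `S` is a class of pairs `(A, D)`, closed under products, which have the formal
  properties of abelian varieties with a symmetric ample divisor class (`IsAbelianLike`), and the
  motives of the varieties in `𝒱` are summands of twists of the motives of members of `S`. Example: all
  abelian varieties, `𝒱` the varieties of abelian type. `𝒱` contains the varieties dominated by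
  products of curves. Besides multiplications by integers, the decomposition of Deninger and Murre
  and the Lefschetz operator of Künnemann, the properties involve for each `r ≥ 1` a variety `X_r` in
  `𝒱` without odd cohomology in degrees less than `r` (in all degrees if `r` is even) through which
  the correspondence `∑ ε_1 ⋯ ε_r [ε_1 + ⋯ + ε_r]^*` factors: a resolution of the quotient of `A^r` by
  the group of the sign changes `(ε_1, …, ε_r)` with `ε_1 ⋯ ε_r = 1`.

The theorem: the following are equivalent.

1. Question 1 for all varieties in `𝒱`: if `m ≥ 1` and `H^(2m-1)(X) = 0` then `CH^m(X)_hom = 0`.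
2. The arithmetic hard Lefschetz conjecture for the pairs in `S`.
3. The arithmetic hard Lefschetz conjecture for all `X` in `𝒱` and all `D` with `LefStd`.
4. `F^2 = 0` on `𝒱`: correspondences which vanish on `H^(2m-1)(X)` kill `CH^m(X)_hom`.

In particular, Question 1 for varieties implies Question 1 for motives. (For abelian varieties,
statement 4 says that `CH^m(A)_(s) = 0` for `s ≠ 0, 1` in Beauville's decomposition, and that
`CH^m(A)_(0)` injects into the cohomology.)
-/

open Pool.Agent.H914 Pool.Agent.R903 Pool.Agent.R898.HL Pool.Agent.R898.QO

universe u v w

/-- Question 1 and Beilinson's arithmetic hard Lefschetz conjecture. -/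
theorem Pool.Agent.Results.MP_32dfd1_ag.ArithmeticLefschetz.result {k : Type u} [Field k]
    {𝒱 : VarClass k} (C : ChowTheory.{u, v} 𝒱) (hPol : C.Polarized) (W : WeilTheory.{u, v, w} C)
    (S : ∀ A : 𝒱.Obj, C.CH A → Prop) (hS : IsAbelianClass W S) :
    [∀ (X : 𝒱.Obj) (m : ℕ), QuestionOne W X m,
      ∀ A D, S A D → ArithLef W A D,
      ∀ (X : 𝒱.Obj) (D : C.CH X), LefStd W X D → ArithLef W X D,
      ∀ X Y : 𝒱.Obj, OnlyOdd W X Y].TFAE :=
  tfae hPol hS
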