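import Pool.Agent.R368.One.Main

/-!
# The vanishing of homologically trivial cycles as one linear equation

Let `𝒱` be a class of smooth projective varieties over a field `k` (for example `k = ℚ̄`) which is
closed under products, with Chow groups `C` (rational coefficients) and a Weil cohomology theory `W`.
A *degree operator* of `X`, `n = dim X`, is a correspondence `d` in `CH^n(X × X)` which acts on
`H^j(X)` as multiplication by `j`, for all `j`. The following are equivalent:

1. each `X` in `𝒱` has *one* degree operator `d` such that `d ∘ γ - γ ∘ d = -γ` for all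
   homologically trivial `γ` in `CH^n(X × X)`;
2. the standard conjecture of Künneth type holds for `𝒱`, and the equation in 1 holds for all `X` and
   all degree operators of `X`;
3. the standard conjecture of Künneth type holds for `𝒱`, and all degree operators of all `X` act on
   `CH^i(X)_hom` as multiplication by `2i - 1`, for all `i`;
4. each `X` in `𝒱` has a Chow–Künneth decomposition, and for all motives `M = (X, p)` and `m ≥ 1`:
   if `H^(2m-1)(M) = 0` then `CH^m(M)_hom = 0`;
5. each `X` in `𝒱` has a Chow–Künneth decomposition, and for all decompositions `π` of all `X` the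
   projector `π_j` kills `CH^i(X)_hom` for all `i` and all `j ≠ 2i - 1`.

For a single `X`: if the equation in 1 holds for one degree operator of `X` then `X` has a
Chow–Künneth decomposition, each correspondence in `CH^n(X × X)` which acts as zero on `H^(2m-1)(X)`
kills `CH^m(X)_hom`, and `CH^m(X)_hom = 0` if `H^(2m-1)(X) = 0`.
-/

open Pool.Agent.H914 Pool.Agent.R903 Pool.Agent.R368

universe u v w

namespace Pool.Agent.Results.MP_32dfd1_ag.OneLinearEquation

theorem result {k : Type u} [Field k] {𝒱 : VarClass k} {C : ChowTheory.{u, v} 𝒱}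
    (W : WeilTheory.{u, v, w} C) (hP : C.Polarized) :
    List.TFAE [∀ X : 𝒱.Obj, ∃ d, W.IsDegree X d ∧ LowersByOne W X d,
      W.Kunneth ∧ ∀ (X : 𝒱.Obj) d, W.IsDegree X d → LowersByOne W X d,
      W.Kunneth ∧ ∀ (X : 𝒱.Obj) d, W.IsDegree X d → ActsByWeight W X d,
      ∀ X : 𝒱.Obj, W.HasCK X ∧ VanishingForMotives W X,
      ∀ X : 𝒱.Obj, W.HasCK X ∧ OnePiece W X] ∧
    ∀ (X : 𝒱.Obj) d, W.IsDegree X d → LowersByOne W X d →
      W.HasCK X ∧ VanishingForAll W X ∧ VanishingForVariety W X :=
  ⟨one_tfae hP, fun _ _ hd h => ⟨⟨_, lagCK_isCK hd (h.pol_eq hd)⟩, h.vanishingForAll hP hd,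
    vanishingForVariety_of (h.vanishingForAll hP hd)⟩⟩

end Pool.Agent.Results.MP_32dfd1_ag.OneLinearEquation
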