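import Pool.Agent.R898.EVM

/-!
# Varieties without odd cohomology and symmetric cycles on abelian varieties

The setting: `𝒱` is a class of smooth projective varieties over a field, closed under products, `C`
stands for the Chow groups with rational coefficients, `W` for a Weil cohomology theory, for example
singular cohomology; `CH^m(X)_hom = homTriv W X m`.

`S` is a class of pairs `(A, ι)`, `ι` in `CH^(dim A)(A × A)`, which is closed under products and such
that (`IsKummerClass`)

* `ι` is symmetric, `ι ∘ ι = Δ`, and `ι` acts on `H^j(A)` as `(-1)^j`;
* `Δ + ι` factors through a variety `K` in `𝒱` with `dim K = dim A` and without odd cohomology;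
* homologically trivial elements of `CH^(dim A)(A × A)` are nilpotent;
* the motive of each `X` in `𝒱` is a summand of a twist of the motive of an `A` with `(A, ι)` in `S`.

Example: `A` runs through the abelian varieties, `ι` is the graph of `-1`, `K` the Kummer variety of
`A` (the blow-up of `A` in the points of order two divided by `-1`; it is smooth and has no odd
cohomology), and `𝒱` is the class of the varieties whose motive is a summand of a twist of the motive
of an abelian variety. It contains the products of curves, and all varieties dominated by products of
curves. The nilpotence is known in this case (Kimura).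

The theorem: the following are equivalent.

1. Question 1 holds for the varieties in `𝒱` without odd cohomology: if `H^j(X) = 0` for all odd `j`
   then `CH^m(X)_hom = 0` for all `m`.
2. The same for the middle codimension: if `dim X = 2m` and `X` has no odd cohomology then
   `CH^m(X)_hom = 0`.
3. For all `(A, ι)` in `S` and all `m`: the symmetric cycles (`ι_* x = x`) in `CH^m(A)_hom` are zero.
4. For all `(A, ι)` in `S`: the homologically trivial elements of `CH^(dim A)(A × A)` which commute
   with `ι` are zero.

If they hold then homologically trivial correspondences between varieties in `𝒱` (with or without odd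
cohomology, of all degrees) compose to zero, they kill the homologically trivial cycles, and the
products of two homologically trivial cycles are zero.

(For abelian varieties with Beauville's decomposition `CH^m(A) = ⨁ CH^m(A)_(s)`, statement 3 says that
`CH^m(A)_(s) = 0` for all even `s ≠ 0` and that `CH^m(A)_(0)` injects into the cohomology.)
-/

open Pool.Agent.H914 Pool.Agent.R903 Pool.Agent.R898.HL Pool.Agent.R898.MB Pool.Agent.R898.EV

universe u v w

/-- Varieties without odd cohomology and symmetric cycles. -/
theorem Pool.Agent.Results.MP_32dfd1_ag.SymmetricCycles.result {k : Type u} [Field k]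
    {𝒱 : VarClass k} (C : ChowTheory.{u, v} 𝒱) (hPol : C.Polarized) (W : WeilTheory.{u, v, w} C)
    (S : ∀ A : 𝒱.Obj, C.CH (A.prod A) → Prop) (hS : IsKummerClass W S) :
    [∀ X : 𝒱.Obj, NoOdd W X → ∀ m, NoHom W X m,
      ∀ (X : 𝒱.Obj) (m : ℕ), X.dim = 2 * m → NoOdd W X → NoHom W X m,
      ∀ A ι, S A ι → ∀ m, NoFixed (C.act ι) (homTriv W A m),
      ∀ A ι, S A ι → NoHomCommuting W A ι].TFAE ∧
    ((∀ X : 𝒱.Obj, NoOdd W X → ∀ m, NoHom W X m) →
      (∀ X Y Z : 𝒱.Obj, CompZero W X Y Z) ∧
        (∀ (X Y : 𝒱.Obj) (b m : ℕ) (β : C.CH (X.prod Y)), β ∈ homTriv W (X.prod Y) b →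
          KillsAll (C.act β) (homTriv W X m)) ∧
        ∀ (X : 𝒱.Obj) (i j : ℕ), MulZero (homTriv W X i) (homTriv W X j)) :=
  ⟨tfae hPol hS, consequences hPol hS⟩
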