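import Pool.Agent.R903.SqZ

/-!
# Homologically trivial cycles on varieties with `H^(2m-1) = 0` and two linear equations

Let `𝒱` be a class of smooth projective varieties over a field `k` (`ℚ̄` in the problem) which is
closed under products, with Chow groups `C` (rational coefficients) and a Weil cohomology theory `W`.
For each `X` in `𝒱` let `L_X` be a correspondence in `CH^(dim X + 1)(X × X)` with the hard Lefschetz
property, for example `L_X = Δ_* D` for an ample divisor class `D`.

**Theorem.** The following are equivalent:

1. the Lefschetz standard conjecture holds for the `L_X`; for all Chow motives `M = (X, p)` with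
   `X` in `𝒱` and all `m ≥ 1`, if `H^(2m-1)(M) = 0` then `CH^m(M)_hom = 0` (the assertion of the
   problem for motives); and the powers of each homologically trivial correspondence from a variety
   to itself span a finite-dimensional space;
2. for each `X` in `𝒱` there are correspondences `L`, homologically equivalent to `L_X`, and `Λ` in
   `CH^(dim X - 1)(X × X)` such that in the Chow groups `[L, [L, Λ]] = -2 L` and
   `[[L, Λ], γ] = -γ` for all homologically trivial `γ` in `CH^(dim X)(X × X)`.

If they hold then `CH^m(X)_hom = 0` for all `X` in `𝒱` and all `m ≥ 1` with `H^(2m-1)(X) = 0`, and for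
all `X`, `m ≥ 1` and all `L`, `Λ` with `[L, [L, Λ]] = -2 L` as above `[L, Λ]_*` is multiplication by
`2m - 1 - dim X` on `CH^m(X)_hom`.
-/

open Pool.Agent.H914 Pool.Agent.R903

universe u v w

namespace Pool.Agent.Results.MP_32dfd1_ag.TwoLinearEquations

theorem result {k : Type u} [Field k] {𝒱 : VarClass k} {C : ChowTheory.{u, v} 𝒱}
    (W : WeilTheory.{u, v, w} C) (hP : C.Polarized)
    (L : ∀ X : 𝒱.Obj, C.CH (X.prod X)) (hL : ∀ X, SZ.IsLefschetzOp W X (L X)) :
    (((∀ X, SZ.Standard W X (L X)) ∧ SZ.Vanishing W ∧ SZ.Algebraic W) ↔
      ∀ X, SZ.HasLinearPair W X (L X)) ∧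
      ((∀ X, SZ.HasLinearPair W X (L X)) →
        SZ.VanishingForVarieties W ∧ SZ.ScalarOnHomTriv W L) :=
  SZ.linear_main W hP L hL

end Pool.Agent.Results.MP_32dfd1_ag.TwoLinearEquations
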